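import Pool.Agent.Helper20.RG.St1

/-!
# Project RG (MP_cb927e_an), module YL: locality of the chord operators
-/

set_option autoImplicit false

open MeasureTheory Set Filter Topology
open scoped ENNReal RealInnerProductSpace

namespace Pool.Agent.Helper84.RG

open Pool.Agent.Helper20.RG
open Pool.Agent.Helper68.LM (Pl BB Bd Av HL ft fm DQ)

theorem hYL (hPT : StPT) : StYL := by
  obtain ⟨hpt, -, hco, -, -, -, -, hSq⟩ := hPT
  have hSm : MeasurableSet (Sq 0 (1 / 2)) := (hSq 0 (1 / 2) (by norm_num)).1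
  intro s c m ℓ R k g h x hs hℓ hc hgh
  have h2k : (0 : ℝ) < (2 : ℝ) ^ k := by positivity
  have hR : 0 ≤ R := (norm_nonneg c).trans hc
  have hkm : (2 : ℝ) ^ (k - (m : ℤ)) ≤ (2 : ℝ) ^ k :=
    zpow_le_zpow_right₀ (by norm_num) (by omega)
  have hkm0 : (0 : ℝ) < (2 : ℝ) ^ (k - (m : ℤ)) := by positivity
  -- the main estimate
  have key : ∀ (X C Y' W : ℝ), |C| ≤ R → |Y' - 0| ≤ 1 / 2 → |W - 0| ≤ 1 / 2 →
      |(X - (2 : ℝ) ^ k * C - ((2 : ℝ) ^ k * ℓ) * Y' - (2 * (2 : ℝ) ^ (k - (m : ℤ))) * W) - X| ≤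
        (R + 3) * ((2 : ℝ) ^ k * ℓ) := by
    intro X C Y' W hC hY hW
    rw [sub_zero] at hY hW
    rw [abs_le] at hC hY hW ⊢
    have e1 : (2 : ℝ) ^ k * R ≤ R * ((2 : ℝ) ^ k * ℓ) := by
      have := mul_le_mul_of_nonneg_left hℓ (by positivity : (0 : ℝ) ≤ R * (2 : ℝ) ^ k)
      linarith
    have e2 : (2 : ℝ) ^ k ≤ (2 : ℝ) ^ k * ℓ := by
      have := mul_le_mul_of_nonneg_left hℓ h2k.le
      linarith
    have e3 : (2 : ℝ) ^ k * C ≤ (2 : ℝ) ^ k * R := mul_le_mul_of_nonneg_left hC.2 h2k.le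
    have e4 : (2 : ℝ) ^ k * (-R) ≤ (2 : ℝ) ^ k * C := mul_le_mul_of_nonneg_left hC.1 h2k.le
    have hkl : (0 : ℝ) < (2 : ℝ) ^ k * ℓ := by positivity
    have e5 : ((2 : ℝ) ^ k * ℓ) * Y' ≤ ((2 : ℝ) ^ k * ℓ) * (1 / 2) :=
      mul_le_mul_of_nonneg_left hY.2 hkl.le
    have e6 : ((2 : ℝ) ^ k * ℓ) * (-(1 / 2)) ≤ ((2 : ℝ) ^ k * ℓ) * Y' :=
      mul_le_mul_of_nonneg_left hY.1 hkl.le
    have e7 : (2 * (2 : ℝ) ^ (k - (m : ℤ))) * W ≤ (2 * (2 : ℝ) ^ (k - (m : ℤ))) * (1 / 2) :=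
      mul_le_mul_of_nonneg_left hW.2 (by positivity)
    have e8 : (2 * (2 : ℝ) ^ (k - (m : ℤ))) * (-(1 / 2)) ≤ (2 * (2 : ℝ) ^ (k - (m : ℤ))) * W :=
      mul_le_mul_of_nonneg_left hW.1 (by positivity)
    constructor <;> linarith
  have hpt2 : ∀ y w : Pl, y ∈ Sq 0 (1 / 2) → w ∈ Sq 0 (1 / 2) →
      (x - (2 : ℝ) ^ k • c - ((2 : ℝ) ^ k * ℓ) • y - (2 * (2 : ℝ) ^ (k - (m : ℤ))) • w) ∈
        Sq x ((R + 3) * ((2 : ℝ) ^ k * ℓ)) := by
    intro y w hy hw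
    have hc0 := (hco c).1.trans hc
    have hc1 := (hco c).2.1.trans hc
    exact ⟨key (x 0) (c 0) (y 0) (w 0) hc0 hy.1 hw.1, key (x 1) (c 1) (y 1) (w 1) hc1 hy.2 hw.2⟩
  unfold Y Av
  refine integral_congr_ae ?_
  have hae : ∀ᵐ y ∂(sg s), y ∈ Sq 0 (1 / 2) := by
    unfold sg
    have hmeas : Measurable (fun t : ℝ => t • E s) := (continuous_id.smul continuous_const).measurable
    refine (ae_map_iff (p := fun y : Pl => y ∈ Sq 0 (1 / 2)) hmeas.aemeasurable hSm).2 ?_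
    filter_upwards [ae_restrict_mem measurableSet_Icc] with t ht
    have h0 : (t • E s) 0 = t * 1 := by
      rw [PiLp.smul_apply, smul_eq_mul]
      unfold E
      rw [(hpt 1 s).1]
    have h1 : (t • E s) 1 = t * s := by
      rw [PiLp.smul_apply, smul_eq_mul]
      unfold E
      rw [(hpt 1 s).2]
    have ht' : |t| ≤ 1 / 2 := abs_le.2 ht
    refine ⟨?_, ?_⟩
    · rw [h0]
      simpa using ht'
    · rw [h1]
      have : |t * s| ≤ 1 / 2 * 1 := by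
        rw [abs_mul]
        exact mul_le_mul ht' hs (abs_nonneg _) (by norm_num)
      simpa using this
  filter_upwards [hae] with y hy
  refine integral_congr_ae ?_
  unfold bx
  filter_upwards [ae_restrict_mem hSm] with w hw
  exact hgh _ (hpt2 y w hy hw)

end Pool.Agent.Helper84.RG
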